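import Pool.Agent.Helper24.IA.St

set_option autoImplicit false

namespace Pool.Agent.Helper16.IA24

open Finset
open Pool.Agent.Helper93.IA Pool.Agent.Helper24.IA

/-- PAI: pairing of edges at a vertex. -/
theorem hPAI : StPAI := by
  intro n X Y h
  classical
  let f : {e // e ∈ X} → Fin n := fun e => e.1.1
  let g : {e // e ∈ Y} → Fin n := fun e => e.1.2
  have hc : ∀ v, Fintype.card {e : {e // e ∈ X} // f e = v} =
      Fintype.card {e : {e // e ∈ Y} // g e = v} := by
    intro v
    have h1 : Fintype.card {e : {e // e ∈ X} // f e = v} = d1 X v := by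
      rw [Fintype.card_congr (Equiv.subtypeSubtypeEquivSubtypeInter (fun e => e ∈ X)
        (fun e : Fin n × Fin n => e.1 = v))]
      exact Fintype.card_of_subtype _ (fun e => by simp [Finset.mem_filter])
    have h2 : Fintype.card {e : {e // e ∈ Y} // g e = v} = d2 Y v := by
      rw [Fintype.card_congr (Equiv.subtypeSubtypeEquivSubtypeInter (fun e => e ∈ Y)
        (fun e : Fin n × Fin n => e.2 = v))]
      exact Fintype.card_of_subtype _ (fun e => by simp [Finset.mem_filter])
    rw [h1, h2, h v]
  let E : {e // e ∈ X} ≃ {e // e ∈ Y} :=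
    (Equiv.sigmaFiberEquiv f).symm.trans
      ((Equiv.sigmaCongrRight fun v => Fintype.equivOfCardEq (hc v)).trans
        (Equiv.sigmaFiberEquiv g))
  refine ⟨E, fun e => ?_⟩
  exact (Fintype.equivOfCardEq (hc (f e)) ⟨e, rfl⟩).2

end Pool.Agent.Helper16.IA24
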